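import Pool.Agent.Lib.MP_fce888_co.Iface
import Pool.Agent.Lib.MP_fce888_co.C48.P_ext

set_option autoImplicit false

/-!
# MP_fce888_co: basic lemmas (spanning trees, acyclic edge sets, circuits)

Everything about path lists, balls and path counts is in `S/AbcPath.lean` (helper11).
-/

namespace Pool.Agent.Lib.MP_fce888_co

open Finset
open scoped Classical

/-- spanning trees contain no circuit -/
theorem isSpT_acy (V : Type) [Fintype V] (G : SimpleGraph V) (T : Finset (Sym2 V))
    (hT : IsSpT G T) : Acy G T := by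
  obtain ⟨T', _, h2, h3⟩ := hT
  intro D hD hcirc
  exact C48.ext_not_acyclic G T' D hcirc (fun e he => (h3 e).mp (hD he)) h2.isAcyclic

/-- acyclic edge sets of a connected graph extend to spanning trees -/
theorem exists_isSpT {V : Type} [Fintype V] {G : SimpleGraph V} (hG : G.Connected)
    (H : Finset (Sym2 V)) (hH : ∀ e ∈ H, e ∈ G.edgeSet) (hacy : Acy G H) :
    ∃ T, IsSpT G T ∧ H ⊆ T ∧ Acy G T := C48.p_ext V G hG H hH hacy

/-- `Acy` is acyclicity in the sense of Mathlib -/
theorem acy_iff {V : Type} [Fintype V] {G : SimpleGraph V} {H : Finset (Sym2 V)}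
    (hH : ∀ e ∈ H, e ∈ G.edgeSet) :
    Acy G H ↔ (SimpleGraph.fromEdgeSet (H : Set (Sym2 V))).IsAcyclic := by
  constructor
  · intro h
    refine C48.ext_acyclic G _ H ?_ ?_ h
    · intro a b hab
      rw [SimpleGraph.fromEdgeSet_adj] at hab
      exact (SimpleGraph.mem_edgeSet G).mp (hH _ hab.1)
    · intro e he
      rw [SimpleGraph.edgeSet_fromEdgeSet] at he
      exact he.1
  · intro h D hD hcirc
    refine C48.ext_not_acyclic G _ D hcirc (fun e he => ?_) h
    rw [SimpleGraph.edgeSet_fromEdgeSet]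
    exact ⟨hD he, fun hd => G.not_isDiag_of_mem_edgeSet (hH e (hD he)) hd⟩

/-- the edges of a spanning tree are edges of the graph -/
theorem IsSpT.sub {V : Type} [Fintype V] {G : SimpleGraph V} {T : Finset (Sym2 V)}
    (hT : IsSpT G T) : ∀ e ∈ T, e ∈ G.edgeSet := by
  obtain ⟨T', h1, _, h3⟩ := hT
  intro e he
  exact SimpleGraph.edgeSet_mono h1 ((h3 e).mp he)

/-- the edges of a circuit are edges of the graph -/
theorem IsCirc.sub {V : Type} [Fintype V] {G : SimpleGraph V} {D : Finset (Sym2 V)}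
    (hD : IsCirc G D) : ∀ e ∈ D, e ∈ G.edgeSet := by
  obtain ⟨m, γ, _, _, hadj, rfl⟩ := hD
  intro e he
  obtain ⟨i, _, rfl⟩ := Finset.mem_image.mp he
  exact hadj i

end Pool.Agent.Lib.MP_fce888_co
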