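import Mathlib

set_option autoImplicit false

/-!
# MP_fce888_co: interface of the four sections

Paper: `/team-store/MP_fce888_h46.md`.  Conventions: NO `[DecidableEq V]` arguments, everywhere
`open scoped Classical` (so that all decidability instances are the classical ones).
Edge sets are `Finset (Sym2 V)`, paths are vertex lists, circuits are edge sets.
-/

namespace Pool.Agent.Lib.MP_fce888_co

open Finset
open scoped Classical

variable {V : Type} [Fintype V]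

/-! ## Parameters (functions of the number `n` of vertices) -/

/-- `LAM = floor (log_2 n)` -/
def lam (n : ℕ) : ℕ := Nat.log 2 n
/-- length of the long paths; `2 ^ LL n ≥ n ^ 3` -/
def LL (n : ℕ) : ℕ := 3 * lam n + 3
/-- radius of the unique path property -/
def R0 (n : ℕ) : ℕ := lam n / 5
/-- near self-intersections: positions -/
def R1 (n : ℕ) : ℕ := lam n / 20
/-- near self-intersections: distance -/
def rn (n : ℕ) : ℕ := lam n / 100
/-- length of the end zones of the long paths -/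
def R2 (n : ℕ) : ℕ := 2 * rn n
/-- the radius `r'` used in the core -/
def rr (n : ℕ) : ℕ := lam n / 250

/-! ## Circuits, trees, covers -/

/-- the vertices of an edge set -/
noncomputable def vs (D : Finset (Sym2 V)) : Finset V := univ.filter fun v => ∃ e ∈ D, v ∈ e

/-- `γ : ℤ → V` (of period `m ≥ 3`, injective modulo `m`) runs around the circuit of `G` whose edge
set is `D`. -/
def IsCyc (G : SimpleGraph V) (D : Finset (Sym2 V)) (m : ℕ) (γ : ℤ → V) : Prop :=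
  3 ≤ m ∧ (∀ i j : ℤ, γ i = γ j ↔ (m : ℤ) ∣ i - j) ∧ (∀ i : ℤ, G.Adj (γ i) (γ (i + 1))) ∧
    D = (range m).image fun i : ℕ => s(γ (i : ℤ), γ ((i : ℤ) + 1))

/-- `D` is the edge set of a circuit of `G` -/
def IsCirc (G : SimpleGraph V) (D : Finset (Sym2 V)) : Prop := ∃ (m : ℕ) (γ : ℤ → V), IsCyc G D m γ

/-- `T` is the edge set of a spanning tree of `G` -/
def IsSpT (G : SimpleGraph V) (T : Finset (Sym2 V)) : Prop :=
  ∃ T' : SimpleGraph V, T' ≤ G ∧ T'.IsTree ∧ ∀ e, e ∈ T ↔ e ∈ T'.edgeSet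

/-- `H` contains no circuit of `G` -/
def Acy (G : SimpleGraph V) (H : Finset (Sym2 V)) : Prop := ∀ D ⊆ H, ¬ IsCirc G D

/-- Section 1: a cover with `M` rectangles. `D` is fundamental for `T` iff `(D \ T).card = 1`. -/
def IsCover (G : SimpleGraph V) (M : ℕ) (σ : Finset (Sym2 V) → Finset (Fin M)) : Prop :=
  ∀ T, IsSpT G T → ∀ C, IsCirc G C → 2 ≤ (C \ T).card →
    ∃ x ∈ σ C, ∀ D, IsCirc G D → (D \ T).card = 1 → x ∉ σ D

/-- property (s1) of the good circuits -/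
structure GoodCirc (G : SimpleGraph V) (L r : ℕ) (D : Finset (Sym2 V)) : Prop where
  /-- length between `L` and `2L`, and NE: vertices at distance `≤ r` are joined by an arc of that length -/
  cyc : ∃ (m : ℕ) (γ : ℤ → V), IsCyc G D m γ ∧ L ≤ m ∧ m ≤ 2 * L ∧
    ∀ i j : ℤ, G.dist (γ i) (γ j) ≤ r →
      (m : ℤ) ∣ (j - i) - (G.dist (γ i) (γ j) : ℤ) ∨ (m : ℤ) ∣ (i - j) - (G.dist (γ i) (γ j) : ℤ)
  /-- TB: no circuit of `G` lies in the ball of radius `r` around a vertex of `D` -/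
  tb : ∀ v ∈ vs D, ∀ Z, IsCirc G Z → ¬ ∀ u ∈ vs Z, G.dist v u ≤ r

/-- Section 3: the random structure.  `Ω` carries the uniform probability. -/
structure IsStr (G : SimpleGraph V) (N L r : ℕ) (Cs Λ : ℝ) {Ω : Type} [Fintype Ω]
    (Ω₀ : Finset Ω) (Q : Ω → Fin N → Finset (Sym2 V)) (e : Ω → Fin N → Sym2 V)
    (C : Ω → Fin N → Fin N → Finset (Sym2 V)) (GG : Finset (Finset (Sym2 V)))
    (μ : Finset (Sym2 V) → ℝ) : Prop where
  ne : Nonempty Ω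
  prob : (9 / 10 : ℝ) * Fintype.card Ω ≤ Ω₀.card
  good : ∀ D ∈ GG, GoodCirc G L r D
  mu_nonneg : ∀ D, 0 ≤ μ D
  mu_supp : ∀ D, D ∉ GG → μ D = 0
  mu_mass : ∑ D ∈ GG, μ D ≤ 1
  /- (s2), geometry -/
  symm : ∀ ω ∈ Ω₀, ∀ i k, C ω i k = C ω k i
  mem : ∀ ω ∈ Ω₀, ∀ i k, i ≠ k → C ω i k ∈ GG
  e_mem : ∀ ω ∈ Ω₀, ∀ i k, i ≠ k → e ω i ∈ C ω i k
  e_notMem : ∀ ω ∈ Ω₀, ∀ i j k, i ≠ j → i ≠ k → j ≠ k → e ω i ∉ C ω j k
  e_far : ∀ ω ∈ Ω₀, ∀ i k, i ≠ k → ∀ u ∈ e ω i, ∀ v ∈ e ω k, r < G.dist u v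
  near_mem : ∀ ω ∈ Ω₀, ∀ i k, i ≠ k → ∀ g ∈ C ω i k,
    (∀ u ∈ g, ∀ v ∈ e ω i, G.dist u v ≤ r) → g ∈ Q ω i
  sub_theta : ∀ ω ∈ Ω₀, ∀ i k, i ≠ k → C ω i k ⊆ Q ω i ∪ Q ω k
  theta_edges : ∀ ω ∈ Ω₀, ∀ i, ∀ g ∈ Q ω i, g ∈ G.edgeSet
  theta_card : ∀ ω ∈ Ω₀, ∀ i j k, (vs (Q ω i ∪ Q ω j ∪ Q ω k)).card ≤ 4 * L
  theta_acy : ∀ ω ∈ Ω₀, ∀ i j k, i ≠ j → i ≠ k → j ≠ k →
    Acy G ((Q ω i ∪ Q ω j ∪ Q ω k) \ {e ω i, e ω k})
  /-- NT: circuits near Theta lie in Theta -/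
  theta_nt : ∀ ω ∈ Ω₀, ∀ i j k, i ≠ j → i ≠ k → j ≠ k → ∀ Z, IsCirc G Z →
    (∀ v ∈ vs Z, ∃ u ∈ vs (Q ω i ∪ Q ω j ∪ Q ω k), G.dist u v ≤ r) → Z ⊆ Q ω i ∪ Q ω j ∪ Q ω k
  /- (s3), laws -/
  law1 : ∀ i k, i ≠ k → ∀ DD : Finset (Finset (Sym2 V)),
    ((Ω₀.filter fun ω => C ω i k ∈ DD).card : ℝ) ≤ (∑ D ∈ DD, μ D) * Fintype.card Ω
  law2 : ∀ i, ∀ (e₀ : Sym2 V) (κ : Finset (Sym2 V)), e₀ ∈ κ →
    (∀ g ∈ κ, ∀ u ∈ g, ∀ v ∈ e₀, G.dist u v ≤ r) →
    ((Ω₀.filter fun ω => e ω i = e₀ ∧ κ ⊆ Q ω i).card : ℝ) ≤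
      Cs * (1 / 2) ^ κ.card / Fintype.card V * Fintype.card Ω
  /-- (M); the exponent is `⌊min (dist, r) / 2⌋` -/
  lawM : ∀ u v : V, ∑ D ∈ GG.filter (fun D => u ∈ vs D ∧ v ∈ vs D), μ D ≤
    Λ * (1 / 2) ^ (min (G.dist u v) r / 2) / Fintype.card V

/-! ## Typical graphs (Section 2) -/

/-- all lists of length `k` -/
noncomputable def lists (V : Type) [Fintype V] (k : ℕ) : Finset (List V) :=
  (univ : Finset (Fin k → V)).image List.ofFn

/-- `l` is the vertex list of a (simple) path of `G` -/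
def IsPL (G : SimpleGraph V) (l : List V) : Prop := l ≠ [] ∧ l.Nodup ∧ l.IsChain G.Adj

/-- the paths of length `t` (`t` edges) -/
noncomputable def paths (G : SimpleGraph V) (t : ℕ) : Finset (List V) :=
  (lists V (t + 1)).filter fun l => IsPL G l

/-- unique path property: two paths of length `≤ R` from `v` with the same end are equal -/
def UP (G : SimpleGraph V) (R : ℕ) (v : V) : Prop :=
  ∀ p q : List V, IsPL G p → IsPL G q → p.head? = some v → q.head? = some v →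
    p.length ≤ R + 1 → q.length ≤ R + 1 → p.getLast? = q.getLast? → p = q

/-- `S_{p,q}(v)`: pairs of paths from `v`, of lengths `p` and `q`, with the same end -/
noncomputable def SS (G : SimpleGraph V) (p q : ℕ) (v : V) : ℕ :=
  ((paths G p ×ˢ paths G q).filter fun P =>
    P.1.head? = some v ∧ P.2.head? = some v ∧ P.1.getLast? = P.2.getLast?).card

/-- typical graphs -/
structure Typ (C2 : ℝ) (G : SimpleGraph V) : Prop where
  conn : G.Connected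
  cubic : ∀ v, (G.neighborSet v).ncard = 3
  t1 : ((univ.filter fun v => ¬ UP G (R0 (Fintype.card V)) v).card : ℝ) ≤
    (Fintype.card V : ℝ) / (lam (Fintype.card V) : ℝ) ^ 4
  t2 : (∑ v, (SS G (LL (Fintype.card V)) (LL (Fintype.card V)) v : ℝ)) ≤
    C2 * 2 ^ (2 * LL (Fintype.card V))
  t3 : ∀ t ≤ LL (Fintype.card V), (∑ v, (SS G t t v : ℝ)) ≤
    (lam (Fintype.card V) : ℝ) ^ 3 * Fintype.card V * (2 ^ t + 2 ^ (2 * t) / Fintype.card V)
  t4 : (5 / 4 : ℝ) * Fintype.card V * 2 ^ LL (Fintype.card V) ≤ (paths G (LL (Fintype.card V))).card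
  t5 : (∑ Q ∈ paths G (LL (Fintype.card V)),
      (((range (LL (Fintype.card V) + 1) ×ˢ range (LL (Fintype.card V) + 1)).filter fun p =>
        p.1 + R1 (Fintype.card V) < p.2 ∧ ∃ u v, Q[p.1]? = some u ∧ Q[p.2]? = some v ∧
          G.dist u v ≤ rn (Fintype.card V)).card : ℝ)) ≤
    (Fintype.card V : ℝ) * 2 ^ LL (Fintype.card V) / lam (Fintype.card V)

/-! ## The four main statements -/

/-- (F) -/
def FStatement : Prop :=
  ∀ (n : ℕ) (G : SimpleGraph (Fin n)), G.Connected →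
    ∀ (k m : ℕ) (A : Matrix (Fin m) (Fin k) ℝ) (b : Fin m → ℝ)
      (π : (Fin k → ℝ) →ᵃ[ℝ] (Sym2 (Fin n) → ℝ)),
      π '' {w : Fin k → ℝ | A.mulVec w ≤ b} =
        convexHull ℝ {x : Sym2 (Fin n) → ℝ |
          ∃ T : SimpleGraph (Fin n), T ≤ G ∧ T.IsTree ∧
            x = T.edgeSet.indicator (fun _ => (1 : ℝ))} →
      ∃ σ : Finset (Sym2 (Fin n)) → Finset (Fin m), IsCover G m σ

/-- (G) -/
def GStatement : Prop :=
  ∃ C2 : ℝ, ∀ᶠ j : ℕ in Filter.atTop,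
    0 < ({G : SimpleGraph (Fin (2 * j)) | ∀ v, (G.neighborSet v).ncard = 3} :
      Set (SimpleGraph (Fin (2 * j)))).ncard ∧
    (1 / 2 : ℝ) * (({G : SimpleGraph (Fin (2 * j)) | ∀ v, (G.neighborSet v).ncard = 3} :
      Set (SimpleGraph (Fin (2 * j)))).ncard : ℝ) ≤
    (({G : SimpleGraph (Fin (2 * j)) | Typ C2 G} : Set (SimpleGraph (Fin (2 * j)))).ncard : ℝ)

/-- (S) -/
def SStatement : Prop :=
  ∀ C2 : ℝ, ∃ (Cs : ℝ) (a : ℕ), ∀ N : ℕ, ∃ n1 : ℕ, ∀ (V : Type) [Fintype V] (G : SimpleGraph V),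
    n1 ≤ Fintype.card V → Typ C2 G →
    ∃ (Ω : Type) (_ : Fintype Ω) (Ω₀ : Finset Ω) (Q : Ω → Fin N → Finset (Sym2 V))
      (e : Ω → Fin N → Sym2 V) (C : Ω → Fin N → Fin N → Finset (Sym2 V))
      (GG : Finset (Finset (Sym2 V))) (μ : Finset (Sym2 V) → ℝ),
      IsStr G N (LL (Fintype.card V)) (rr (Fintype.card V)) Cs ((lam (Fintype.card V) : ℝ) ^ a)
        Ω₀ Q e C GG μ

/-- (C) -/
def CStatement : Prop :=
  ∀ (K : ℕ) (Cs : ℝ) (a : ℕ), ∃ N n0 : ℕ, ∀ (V : Type) [Fintype V] (G : SimpleGraph V),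
    n0 ≤ Fintype.card V → G.Connected → (∀ v, (G.neighborSet v).ncard = 3) →
    ∀ (Ω : Type) [Fintype Ω] (Ω₀ : Finset Ω) (Q : Ω → Fin N → Finset (Sym2 V))
      (e : Ω → Fin N → Sym2 V) (C : Ω → Fin N → Fin N → Finset (Sym2 V))
      (GG : Finset (Finset (Sym2 V))) (μ : Finset (Sym2 V) → ℝ),
      IsStr G N (LL (Fintype.card V)) (rr (Fintype.card V)) Cs ((lam (Fintype.card V) : ℝ) ^ a)
        Ω₀ Q e C GG μ →
      ∀ (M : ℕ) (σ : Finset (Sym2 V) → Finset (Fin M)), IsCover G M σ → K * Fintype.card V < M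

/-- The final assembly. -/
theorem assembly (hF : FStatement) (hG : GStatement) (hS : SStatement) (hC : CStatement) :
    ¬ (∃ C : ℝ, Filter.Tendsto (fun j : ℕ =>
    ((({G : SimpleGraph (Fin (2 * j)) |
        (∀ v, (G.neighborSet v).ncard = 3) ∧
        ∃ (k m : ℕ) (A : Matrix (Fin m) (Fin k) ℝ) (b : Fin m → ℝ)
          (π : (Fin k → ℝ) →ᵃ[ℝ] (Sym2 (Fin (2 * j)) → ℝ)),
          (m : ℝ) ≤ C * ((2 * j : ℕ) : ℝ) ∧
          π '' {w : Fin k → ℝ | A.mulVec w ≤ b} =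
            convexHull ℝ {x : Sym2 (Fin (2 * j)) → ℝ |
              ∃ T : SimpleGraph (Fin (2 * j)), T ≤ G ∧ T.IsTree ∧
                x = T.edgeSet.indicator (fun _ => (1 : ℝ))}} :
        Set (SimpleGraph (Fin (2 * j)))).ncard : ℝ) /
     (({G : SimpleGraph (Fin (2 * j)) | ∀ v, (G.neighborSet v).ncard = 3} :
        Set (SimpleGraph (Fin (2 * j)))).ncard : ℝ)))
    Filter.atTop (nhds 1)) := by
  rintro ⟨C, hlim⟩
  obtain ⟨C2, hG⟩ := hG
  obtain ⟨Cs, a, hS⟩ := hS C2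
  obtain ⟨N, n0, hC⟩ := hC ⌈C⌉₊ Cs a
  obtain ⟨n1, hS⟩ := hS N
  have h34 : ∀ᶠ j : ℕ in Filter.atTop, (3 / 4 : ℝ) <
      ((({G : SimpleGraph (Fin (2 * j)) |
        (∀ v, (G.neighborSet v).ncard = 3) ∧
        ∃ (k m : ℕ) (A : Matrix (Fin m) (Fin k) ℝ) (b : Fin m → ℝ)
          (π : (Fin k → ℝ) →ᵃ[ℝ] (Sym2 (Fin (2 * j)) → ℝ)),
          (m : ℝ) ≤ C * ((2 * j : ℕ) : ℝ) ∧
          π '' {w : Fin k → ℝ | A.mulVec w ≤ b} =
            convexHull ℝ {x : Sym2 (Fin (2 * j)) → ℝ |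
              ∃ T : SimpleGraph (Fin (2 * j)), T ≤ G ∧ T.IsTree ∧
                x = T.edgeSet.indicator (fun _ => (1 : ℝ))}} :
        Set (SimpleGraph (Fin (2 * j)))).ncard : ℝ) /
     (({G : SimpleGraph (Fin (2 * j)) | ∀ v, (G.neighborSet v).ncard = 3} :
        Set (SimpleGraph (Fin (2 * j)))).ncard : ℝ)) :=
    hlim.eventually (lt_mem_nhds (by norm_num))
  obtain ⟨j, hj1, ⟨hj2, hj3⟩, hj4⟩ :=
    (h34.and (hG.and (Filter.eventually_ge_atTop (max n0 n1)))).exists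
  set Cub : Set (SimpleGraph (Fin (2 * j))) := {G | ∀ v, (G.neighborSet v).ncard = 3} with hCub
  set Small : Set (SimpleGraph (Fin (2 * j))) := {G : SimpleGraph (Fin (2 * j)) |
        (∀ v, (G.neighborSet v).ncard = 3) ∧
        ∃ (k m : ℕ) (A : Matrix (Fin m) (Fin k) ℝ) (b : Fin m → ℝ)
          (π : (Fin k → ℝ) →ᵃ[ℝ] (Sym2 (Fin (2 * j)) → ℝ)),
          (m : ℝ) ≤ C * ((2 * j : ℕ) : ℝ) ∧
          π '' {w : Fin k → ℝ | A.mulVec w ≤ b} =
            convexHull ℝ {x : Sym2 (Fin (2 * j)) → ℝ |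
              ∃ T : SimpleGraph (Fin (2 * j)), T ≤ G ∧ T.IsTree ∧
                x = T.edgeSet.indicator (fun _ => (1 : ℝ))}} with hSmall
  set Ty : Set (SimpleGraph (Fin (2 * j))) := {G | Typ C2 G} with hTy
  have hpos : (0 : ℝ) < (Cub.ncard : ℝ) := by exact_mod_cast hj2
  -- the two sets are disjoint
  have hdisj : Disjoint Small Ty := by
    rw [Set.disjoint_left]
    rintro G ⟨hcub, k, m, A, b, π, hm, hπ⟩ hT
    have hT' : Typ C2 G := hT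
    have hcard : Fintype.card (Fin (2 * j)) = 2 * j := Fintype.card_fin _
    have h0 : n0 ≤ Fintype.card (Fin (2 * j)) := by
      rw [hcard]; have := le_max_left n0 n1; omega
    have h1 : n1 ≤ Fintype.card (Fin (2 * j)) := by
      rw [hcard]; have := le_max_right n0 n1; omega
    obtain ⟨σ, hσ⟩ := hF _ G hT'.conn k m A b π hπ
    obtain ⟨Ω, iΩ, Ω₀, Q, e, Cc, GG, μ, hstr⟩ := hS (Fin (2 * j)) G h1 hT'
    have := hC (Fin (2 * j)) G h0 hT'.conn hcub Ω Ω₀ Q e Cc GG μ hstr m σ hσ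
    rw [hcard] at this
    have h2 : (m : ℝ) ≤ (⌈C⌉₊ : ℝ) * ((2 * j : ℕ) : ℝ) :=
      hm.trans (mul_le_mul_of_nonneg_right (Nat.le_ceil C) (by positivity))
    have h3 : m ≤ ⌈C⌉₊ * (2 * j) := by exact_mod_cast h2
    omega
  have hsub : Small ∪ Ty ⊆ Cub := by
    rintro G (h | h)
    · exact h.1
    · exact Typ.cubic h
  have hle : Small.ncard + Ty.ncard ≤ Cub.ncard := by
    rw [← Set.ncard_union_eq hdisj (Set.toFinite _) (Set.toFinite _)]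
    exact Set.ncard_le_ncard hsub (Set.toFinite _)
  have hle' : (Small.ncard : ℝ) + (Ty.ncard : ℝ) ≤ (Cub.ncard : ℝ) := by exact_mod_cast hle
  have h5 : (3 / 4 : ℝ) * (Cub.ncard : ℝ) < (Small.ncard : ℝ) := by
    rwa [lt_div_iff₀ hpos] at hj1
  linarith

end Pool.Agent.Lib.MP_fce888_co
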